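import Pool.Agent.Helper99.SZ.Stmts

/-! MP_bde085_nt: module CNT, counting `S`-units. -/

set_option autoImplicit false

namespace Pool.Helper99.SZ

open NumberField

/-- powers of `S`-units -/
theorem cnt_pow {K : Type} [Field K] [NumberField K] {m : ℕ} {P : Fin m → Ideal (𝓞 K)}
    (h1 : ∀ a b u w, SU P a u → SU P b w → SU P (a + b) (u * w))
    (h2 : ∀ a u, SU P a u → SU P (-a) u⁻¹) (h0 : SU P 0 1) {a : Fin m → ℤ} {u : Kˣ}
    (h : SU P a u) (k : ℤ) : SU P (k • a) (u ^ k) := by
  induction k using Int.induction_on with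
  | zero => simpa using h0
  | succ n ih =>
    rw [add_smul, one_smul, zpow_add_one]
    exact h1 _ _ _ _ ih h
  | pred n ih =>
    rw [sub_smul, one_smul, sub_eq_add_neg, zpow_sub_one]
    exact h1 _ _ _ _ ih (h2 _ _ h)

/-- products of powers of `S`-units -/
theorem cnt_prod {K : Type} [Field K] [NumberField K] {m : ℕ} {P : Fin m → Ideal (𝓞 K)}
    (h1 : ∀ a b u w, SU P a u → SU P b w → SU P (a + b) (u * w))
    (h2 : ∀ a u, SU P a u → SU P (-a) u⁻¹) (h0 : SU P 0 1) {n : ℕ} {s : Fin n → Kˣ}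
    {α : Fin n → Fin m → ℤ} (hs : ∀ i, SU P (α i) (s i)) (z : Fin n → ℤ) :
    SU P (fun j => ∑ i, z i * α i j) (∏ i, s i ^ (z i)) := by
  classical
  have key : ∀ S : Finset (Fin n), SU P (∑ i ∈ S, z i • α i) (∏ i ∈ S, s i ^ (z i)) := by
    intro S
    induction S using Finset.induction_on with
    | empty => simpa using h0
    | insert i S hi ih =>
      rw [Finset.sum_insert hi, Finset.prod_insert hi]
      exact h1 _ _ _ _ (cnt_pow h1 h2 h0 (hs i) (z i)) ih
  have h := key Finset.univ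
  have he : (∑ i, z i • α i) = fun j => ∑ i, z i * α i j := by
    funext j
    rw [Finset.sum_apply]
    rfl
  rw [he] at h
  exact h

/-- the absolute values of `κ ^ k ∏ s_i ^ z_i` -/
theorem cnt_log {K : Type} [Field K] [NumberField K] {n : ℕ} (τ : K →+* ℂ) (κ : 𝓞 K)
    (hκ : κ ≠ 0) (s : Fin n → Kˣ) (a : ℤ × (Fin n → ℤ)) :
    Real.log ‖τ (gelS κ s a)‖ = (a.1 : ℝ) * Real.log ‖τ (κ : K)‖ +
      Real.log ‖τ (∏ i, ((s i : Kˣ) : K) ^ (a.2 i))‖ := by
  have hκ' : (κ : K) ≠ 0 := by
    intro h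
    exact hκ (RingOfIntegers.ext h)
  have h1 : ‖τ ((κ : K) ^ a.1)‖ ≠ 0 := by
    rw [norm_ne_zero_iff, Ne, map_eq_zero]
    exact zpow_ne_zero _ hκ'
  have h2 : ‖τ (∏ i, ((s i : Kˣ) : K) ^ (a.2 i))‖ ≠ 0 := by
    rw [norm_ne_zero_iff, Ne, map_eq_zero, Finset.prod_eq_zero_iff]
    rintro ⟨i, _, hi⟩
    exact zpow_ne_zero _ (s i).ne_zero hi
  unfold gelS
  rw [map_mul, norm_mul, Real.log_mul h1 h2, map_zpow₀, norm_zpow, Real.log_zpow]

/-- logarithms of the norms are not negative -/
theorem cnt_NP {K : Type} [Field K] [NumberField K] (I : Ideal (𝓞 K)) (hI : I ≠ ⊥) :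
    0 ≤ Real.log (Ideal.absNorm I) := by
  apply Real.log_nonneg
  have h : 0 < Ideal.absNorm I := by
    rw [Nat.pos_iff_ne_zero, Ne, Ideal.absNorm_eq_zero_iff]
    exact hI
  exact_mod_cast h

/-- at most three places -/
theorem cnt_places (K : Type) [Field K] [NumberField K] (h : Module.finrank ℚ K = 3) :
    Fintype.card (InfinitePlace K) ≤ 3 := by
  classical
  have h1 := InfinitePlace.card_add_two_mul_card_eq_rank K
  have h2 : Fintype.card (InfinitePlace K) =
      InfinitePlace.nrRealPlaces K + InfinitePlace.nrComplexPlaces K :=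
    InfinitePlace.card_eq_nrRealPlaces_add_nrComplexPlaces K
  omega

/-- elements of bounded size: finiteness -/
theorem cnt_fin {K : Type} [Field K] [NumberField K] {m n : ℕ} (σ : Fin 3 → (K →+* ℂ))
    (P : Fin m → Ideal (𝓞 K)) (hP : ∀ j, P j ≠ ⊥) (κ : 𝓞 K) (hκ : κ ≠ 0) (nn : Fin m → ℕ)
    (s : Fin n → Kˣ) (α : Fin n → Fin m → ℤ) (C A ρ : ℝ) (hC : 0 ≤ C) (hA : 1 ≤ A)
    (hCB : CB σ P s α C) :
    {a : ℤ × (Fin n → ℤ) | nrmS σ P κ nn s α A a ≤ ρ}.Finite := by
  classical
  set R : ℝ := max ρ (C * (∑ k, (ρ + ρ * |Real.log ‖σ k (κ : K)‖|) +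
    ∑ j, (ρ + ρ * (nn j * Real.log (Ideal.absNorm (P j)))))) with hR
  set N : ℤ := ⌈R⌉ with hN
  have hsub : {a : ℤ × (Fin n → ℤ) | nrmS σ P κ nn s α A a ≤ ρ} ⊆
      (Set.Icc (-N) N) ×ˢ (Set.pi Set.univ (fun _ : Fin n => Set.Icc (-N) N)) := by
    intro a ha
    have ha' : nrmS σ P κ nn s α A a ≤ ρ := ha
    have hx : ∀ k ∈ Finset.univ, 0 ≤ |Real.log ‖σ k (gelS κ s a)‖| := fun k _ => abs_nonneg _
    have hy : ∀ j ∈ Finset.univ, 0 ≤ |((a.1 * nn j + ∑ i, a.2 i * α i j : ℤ) : ℝ)| *
        Real.log (Ideal.absNorm (P j)) := fun j _ => mul_nonneg (abs_nonneg _) (cnt_NP _ (hP j))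
    have h1 := Finset.sum_nonneg hx
    have h2 := Finset.sum_nonneg hy
    have h3 : 0 ≤ A * |(a.1 : ℝ)| := mul_nonneg (by linarith) (abs_nonneg _)
    unfold nrmS at ha'
    have ha1 : |(a.1 : ℝ)| ≤ ρ := by
      have h4 : |(a.1 : ℝ)| ≤ A * |(a.1 : ℝ)| := by
        have := mul_le_mul_of_nonneg_right hA (abs_nonneg (a.1 : ℝ))
        linarith
      have h5 := abs_nonneg (a.1 : ℝ)
      nlinarith
    have hρ : 0 ≤ ρ := (abs_nonneg _).trans ha1
    have hl : ∀ k, |Real.log ‖σ k (gelS κ s a)‖| ≤ ρ := by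
      intro k
      have := Finset.single_le_sum hx (Finset.mem_univ k)
      nlinarith
    have hm : ∀ j, |((a.1 * nn j + ∑ i, a.2 i * α i j : ℤ) : ℝ)| *
        Real.log (Ideal.absNorm (P j)) ≤ ρ := by
      intro j
      have := Finset.single_le_sum hy (Finset.mem_univ j)
      nlinarith
    have hz : ∀ i, |((a.2 i : ℤ) : ℝ)| ≤ C * (∑ k, (ρ + ρ * |Real.log ‖σ k (κ : K)‖|) +
        ∑ j, (ρ + ρ * (nn j * Real.log (Ideal.absNorm (P j))))) := by
      intro i
      refine (hCB a.2 i).trans (mul_le_mul_of_nonneg_left (add_le_add ?_ ?_) hC)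
      · apply Finset.sum_le_sum
        intro k _
        have h4 := cnt_log (σ k) κ hκ s a
        have h5 : Real.log ‖σ k (∏ i, ((s i : Kˣ) : K) ^ (a.2 i))‖ =
            Real.log ‖σ k (gelS κ s a)‖ - (a.1 : ℝ) * Real.log ‖σ k (κ : K)‖ := by linarith
        rw [h5]
        refine (abs_sub _ _).trans (add_le_add (hl k) ?_)
        rw [abs_mul]
        exact mul_le_mul_of_nonneg_right ha1 (abs_nonneg _)
      · apply Finset.sum_le_sum
        intro j _
        have h4 : ((∑ i, a.2 i * α i j : ℤ) : ℝ) =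
            ((a.1 * nn j + ∑ i, a.2 i * α i j : ℤ) : ℝ) - (a.1 : ℝ) * nn j := by
          push_cast
          ring
        rw [h4]
        have h5 := cnt_NP _ (hP j)
        have h6 : |((a.1 * nn j + ∑ i, a.2 i * α i j : ℤ) : ℝ) - (a.1 : ℝ) * nn j| ≤
            |((a.1 * nn j + ∑ i, a.2 i * α i j : ℤ) : ℝ)| + ρ * nn j := by
          refine (abs_sub _ _).trans (add_le_add le_rfl ?_)
          rw [abs_mul, abs_of_nonneg (Nat.cast_nonneg _ : (0 : ℝ) ≤ (nn j : ℝ))]
          exact mul_le_mul_of_nonneg_right ha1 (Nat.cast_nonneg _)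
        calc _ ≤ (|((a.1 * nn j + ∑ i, a.2 i * α i j : ℤ) : ℝ)| + ρ * nn j) *
              Real.log (Ideal.absNorm (P j)) := mul_le_mul_of_nonneg_right h6 h5
          _ = |((a.1 * nn j + ∑ i, a.2 i * α i j : ℤ) : ℝ)| * Real.log (Ideal.absNorm (P j)) +
              ρ * (nn j * Real.log (Ideal.absNorm (P j))) := by ring
          _ ≤ _ := add_le_add (hm j) le_rfl
    have hint : ∀ x : ℤ, |(x : ℝ)| ≤ R → x ∈ Set.Icc (-N) N := by
      intro x hx
      have h4 : |(x : ℝ)| ≤ (N : ℝ) := hx.trans (Int.le_ceil R)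
      obtain ⟨h5, h6⟩ := abs_le.1 h4
      refine ⟨?_, ?_⟩
      · exact_mod_cast h5
      · exact_mod_cast h6
    refine ⟨hint _ (ha1.trans (le_max_left _ _)), ?_⟩
    intro i _
    exact hint _ ((hz i).trans (le_max_right _ _))
  exact ((Set.finite_Icc _ _).prod (Set.Finite.pi (fun _ => Set.finite_Icc _ _))).subset hsub

theorem st_CNT (h1 : ST_SUB) (h2 : ST_PHS) (_h3 : ST_GEL1) (h4 : ST_SUF) (_h5 : BK.ST_EMB3) :
    ST_CNT := by
  classical
  intro m
  obtain ⟨C1, hC1, H1⟩ := h1 m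
  obtain ⟨C2, hC2, H2⟩ := h2 m
  set B : ℝ := 8 * ((m : ℝ) + 4) with hB
  have hB1 : 1 ≤ B := by
    have : (0 : ℝ) ≤ m := Nat.cast_nonneg m
    rw [hB]
    linarith
  have hBp : 1 ≤ B ^ (3 + m) := one_le_pow₀ hB1
  have hBp' : B ≤ B ^ (3 + m) := by
    calc B = B ^ 1 := (pow_one B).symm
      _ ≤ B ^ (3 + m) := pow_le_pow_right₀ hB1 (by omega)
  refine ⟨C1 + 2 * C2 * B ^ (3 + m), ?_, ?_⟩
  · have : 0 ≤ 2 * C2 * B ^ (3 + m) := by positivity
    linarith
  intro K _ _ hK σ hσ P hPi hP κ hκ nn 𝔞 h𝔞 G1 hG1 hG2 q0 hq0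
  obtain ⟨n, s, α, hn, hsG, hsS, hgen, hCB⟩ := H1 K hK σ hσ P hPi hP G1 hG1 hG2
  obtain ⟨S1, S2, S3, S4, -, -⟩ := h4 K m P hPi hP
  have hP0 : ∀ j, P j ≠ ⊥ := fun j => (hP j).2
  have hlogP : ∀ j, 0 ≤ Real.log (Ideal.absNorm (P j)) := fun j => cnt_NP _ (hP0 j)
  have hS0 : SU P 0 1 := (S4 1).2 ⟨1, by simp⟩
  have hSn : SU P 0 (-1 : Kˣ) := (S4 (-1)).2 ⟨-1, by simp⟩
  have hCBC : CB σ P s α (C1 + 2 * C2 * B ^ (3 + m)) := by
    intro z i
    refine (hCB z i).trans (mul_le_mul_of_nonneg_right ?_ ?_)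
    · have : 0 ≤ 2 * C2 * B ^ (3 + m) := by positivity
      linarith
    · apply add_nonneg
      · exact Finset.sum_nonneg fun k _ => abs_nonneg _
      · exact Finset.sum_nonneg fun j _ => mul_nonneg (abs_nonneg _) (hlogP j)
  refine ⟨n, s, α, hn, hsG, hsS, hCBC, ?_⟩
  intro A h ν ρ hh hdisc hA h𝔞A hν hρ
  have hsum0 : 0 ≤ ∑ j, Real.log (Ideal.absNorm (P j)) := Finset.sum_nonneg fun j _ => hlogP j
  have hX : 0 ≤ A + h + ∑ j, Real.log (Ideal.absNorm (P j)) := by linarith
  have hρ0 : 0 ≤ ρ := by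
    refine le_trans ?_ hρ
    apply mul_nonneg _ hX
    positivity
  have hB0 : 0 < B := by linarith
  set ρ' : ℝ := ρ / B with hρ'
  have hρρ' : B * ρ' = ρ := by
    rw [hρ']
    field_simp
  have hρ'0 : 0 ≤ ρ' := div_nonneg hρ0 hB0.le
  have hcond : C2 * (A + h + ∑ j, Real.log (Ideal.absNorm (P j))) ≤ ρ' := by
    rw [hρ', le_div_iff₀ hB0]
    refine le_trans ?_ hρ
    have h5 : C2 * B ≤ C1 + 2 * C2 * B ^ (3 + m) := by
      have h6 : C2 * B ≤ C2 * B ^ (3 + m) := mul_le_mul_of_nonneg_left hBp' (by linarith)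
      have h7 : 0 ≤ C2 * B ^ (3 + m) := by positivity
      linarith
    calc C2 * (A + h + ∑ j, Real.log (Ideal.absNorm (P j))) * B =
        C2 * B * (A + h + ∑ j, Real.log (Ideal.absNorm (P j))) := by ring
      _ ≤ _ := mul_le_mul_of_nonneg_right h5 hX
  obtain ⟨hfin, hPHS⟩ := H2 K hK P hPi hP κ hκ nn 𝔞 h𝔞 A h ν ρ' hh hdisc hA h𝔞A hν hcond
  -- the target set
  have hfinS := cnt_fin σ P hP0 κ hκ nn s α C1 A ρ (by linarith) hA hCB
  -- counting
  have hcount : (TS P κ nn A ρ').ncard ≤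
      2 * q0 * {a : ℤ × (Fin n → ℤ) | nrmS σ P κ nn s α A a ≤ ρ}.ncard := by
    have : Fintype ↥(TS P κ nn A ρ') := hfin.fintype
    obtain ⟨F, hF1, hF2⟩ := hq0 (↥(TS P κ nn A ρ')) (fun x => x.1.2) (by
      intro x
      obtain ⟨_, _, a, ha, _⟩ := x.2
      exact ⟨a, ha⟩)
    have hcard : (TS P κ nn A ρ').ncard = Fintype.card ↥(TS P κ nn A ρ') := by
      rw [← Nat.card_eq_fintype_card]
      rfl
    rw [hcard]
    refine hF1.trans ?_
    have hFc : F.card ≤ 2 * {a : ℤ × (Fin n → ℤ) | nrmS σ P κ nn s α A a ≤ ρ}.ncard := by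
      rcases F.eq_empty_or_nonempty with rfl | ⟨x0, hx0⟩
      · simp
      · have hz : ∀ x : ↥(TS P κ nn A ρ'), ∃ z : Fin n → ℤ, x ∈ F →
            (x.1.2 * (x0.1.2)⁻¹ = ∏ i, s i ^ (z i) ∨ x.1.2 * (x0.1.2)⁻¹ = -∏ i, s i ^ (z i)) := by
          intro x
          by_cases hx : x ∈ F
          · obtain ⟨z, hz⟩ := hgen _ (hF2 x hx x0 hx0)
            exact ⟨z, fun _ => hz⟩
          · exact ⟨0, fun h => absurd h hx⟩
        choose Z hZ using hz
        have hmem : ∀ x ∈ F, ((x.1.1 - x0.1.1, Z x) : ℤ × (Fin n → ℤ)) ∈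
            {a : ℤ × (Fin n → ℤ) | nrmS σ P κ nn s α A a ≤ ρ} := by
          intro x hx
          obtain ⟨hxA, hxσ, a, haS, haP⟩ := x.2
          obtain ⟨hyA, hyσ, b, hbS, hbP⟩ := x0.2
          have hprodS := cnt_prod S1 S2 hS0 hsS (Z x)
          have hquo : SU P (a + -b) (x.1.2 * (x0.1.2)⁻¹) := S1 _ _ _ _ haS (S2 _ _ hbS)
          have hexp : a + -b = fun j => ∑ i, Z x i * α i j := by
            rcases hZ x hx with h5 | h5
            · rw [h5] at hquo
              exact S3 _ _ _ hquo hprodS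
            · rw [h5] at hquo
              have h6 := S1 _ _ _ _ hSn hprodS
              rw [zero_add, neg_one_mul] at h6
              exact S3 _ _ _ hquo h6
          have hval : ∀ τ : K →+* ℂ, ‖τ (∏ i, ((s i : Kˣ) : K) ^ (Z x i))‖ =
              ‖τ (x.1.2 : K)‖ / ‖τ (x0.1.2 : K)‖ := by
            intro τ
            have h5 : ((x.1.2 * (x0.1.2)⁻¹ : Kˣ) : K) = ∏ i, ((s i : Kˣ) : K) ^ (Z x i) ∨
                ((x.1.2 * (x0.1.2)⁻¹ : Kˣ) : K) = -∏ i, ((s i : Kˣ) : K) ^ (Z x i) := by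
              rcases hZ x hx with h6 | h6
              · left
                rw [h6, Units.coe_prod]
                refine Finset.prod_congr rfl fun i _ => ?_
                rw [Units.val_zpow_eq_zpow_val]
              · right
                rw [h6, Units.val_neg, Units.coe_prod]
                congr 1
                refine Finset.prod_congr rfl fun i _ => ?_
                rw [Units.val_zpow_eq_zpow_val]
            have h6 : ‖τ ((x.1.2 * (x0.1.2)⁻¹ : Kˣ) : K)‖ =
                ‖τ (x.1.2 : K)‖ / ‖τ (x0.1.2 : K)‖ := by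
              rw [Units.val_mul, Units.val_inv_eq_inv_val, map_mul, map_inv₀, norm_mul, norm_inv]
              rfl
            rw [← h6]
            rcases h5 with h7 | h7
            · rw [h7]
            · rw [h7, map_neg, norm_neg]
          have hne : ∀ (τ : K →+* ℂ) (u : Kˣ), ‖τ (u : K)‖ ≠ 0 := by
            intro τ u
            rw [norm_ne_zero_iff, Ne, map_eq_zero]
            exact u.ne_zero
          change nrmS σ P κ nn s α A (x.1.1 - x0.1.1, Z x) ≤ ρ
          unfold nrmS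
          have hp1 : ∑ k, |Real.log ‖σ k (gelS κ s (x.1.1 - x0.1.1, Z x))‖| ≤ 6 * ρ' := by
            have h5 : ∀ k ∈ Finset.univ, |Real.log ‖σ k (gelS κ s (x.1.1 - x0.1.1, Z x))‖| ≤
                2 * ρ' := by
              intro k _
              rw [cnt_log (σ k) κ hκ s]
              dsimp only
              rw [hval, Real.log_div (hne _ _) (hne _ _)]
              have h6 : ((x.1.1 - x0.1.1 : ℤ) : ℝ) * Real.log ‖σ k (κ : K)‖ +
                  (Real.log ‖σ k (x.1.2 : K)‖ - Real.log ‖σ k (x0.1.2 : K)‖) =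
                  (Real.log ‖σ k (x.1.2 : K)‖ + (x.1.1 : ℝ) * Real.log ‖σ k (κ : K)‖) -
                  (Real.log ‖σ k (x0.1.2 : K)‖ + (x0.1.1 : ℝ) * Real.log ‖σ k (κ : K)‖) := by
                push_cast
                ring
              rw [h6]
              refine (abs_sub _ _).trans ?_
              have h7 := hxσ (σ k)
              have h8 := hyσ (σ k)
              linarith
            have h6 := Finset.sum_le_sum h5
            rw [Finset.sum_const, Finset.card_univ, Fintype.card_fin, nsmul_eq_mul] at h6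
            push_cast at h6
            linarith
          have hp2 : A * |((x.1.1 - x0.1.1 : ℤ) : ℝ)| ≤ 2 * ρ' := by
            have h5 : |((x.1.1 - x0.1.1 : ℤ) : ℝ)| ≤ |(x.1.1 : ℝ)| + |(x0.1.1 : ℝ)| := by
              push_cast
              exact abs_sub _ _
            have h6 := mul_le_mul_of_nonneg_left h5 (by linarith : (0 : ℝ) ≤ A)
            have h7 : A * (|(x.1.1 : ℝ)| + |(x0.1.1 : ℝ)|) =
                |(x.1.1 : ℝ)| * A + |(x0.1.1 : ℝ)| * A := by ring
            rw [h7] at h6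
            linarith
          have hp3 : ∑ j, |(((x.1.1 - x0.1.1) * nn j + ∑ i, Z x i * α i j : ℤ) : ℝ)| *
              Real.log (Ideal.absNorm (P j)) ≤ m * (2 * ρ') := by
            have h5 : ∀ j ∈ Finset.univ, |(((x.1.1 - x0.1.1) * nn j +
                ∑ i, Z x i * α i j : ℤ) : ℝ)| * Real.log (Ideal.absNorm (P j)) ≤ 2 * ρ' := by
              intro j _
              have h6 : ∑ i, Z x i * α i j = a j - b j := by
                have := congrFun hexp j
                simp only [Pi.add_apply, Pi.neg_apply] at this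
                rw [← this]
                ring
              rw [h6]
              have h7 : (((x.1.1 - x0.1.1) * nn j + (a j - b j) : ℤ) : ℝ) =
                  ((a j + x.1.1 * nn j : ℤ) : ℝ) - ((b j + x0.1.1 * nn j : ℤ) : ℝ) := by
                push_cast
                ring
              rw [h7]
              have h8 := mul_le_mul_of_nonneg_right (abs_sub ((a j + x.1.1 * nn j : ℤ) : ℝ)
                ((b j + x0.1.1 * nn j : ℤ) : ℝ)) (hlogP j)
              have h9 := haP j
              have h10 := hbP j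
              rw [add_mul] at h8
              linarith
            have h6 := Finset.sum_le_sum h5
            rw [Finset.sum_const, Finset.card_univ, Fintype.card_fin, nsmul_eq_mul] at h6
            exact h6
          dsimp only
          rw [← hρρ', hB]
          nlinarith [hp1, hp2, hp3]
        have himg : (F.image (fun x => ((x.1.1 - x0.1.1, Z x) : ℤ × (Fin n → ℤ)))).card ≤
            {a : ℤ × (Fin n → ℤ) | nrmS σ P κ nn s α A a ≤ ρ}.ncard := by
          rw [← Set.ncard_coe_finset]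
          apply Set.ncard_le_ncard _ hfinS
          intro a ha
          obtain ⟨x, hx, rfl⟩ := Finset.mem_image.1 ha
          exact hmem x hx
        refine (Finset.card_le_mul_card_image F 2 ?_).trans (Nat.mul_le_mul_left 2 himg)
        intro a _
        -- the fibres have at most two elements
        have hinj : Set.InjOn (fun x : ↥(TS P κ nn A ρ') => x.1.2)
            (F.filter (fun x => ((x.1.1 - x0.1.1, Z x) : ℤ × (Fin n → ℤ)) = a) : Set _) := by
          intro x hx y hy hxy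
          have hx' := (Finset.mem_filter.1 hx).2
          have hy' := (Finset.mem_filter.1 hy).2
          have h5 : x.1.1 - x0.1.1 = y.1.1 - x0.1.1 := by
            rw [← hy'] at hx'
            exact congrArg Prod.fst hx'
          apply Subtype.ext
          apply Prod.ext
          · linarith
          · exact hxy
        have hmap : (F.filter (fun x => ((x.1.1 - x0.1.1, Z x) : ℤ × (Fin n → ℤ)) = a)).image
            (fun x : ↥(TS P κ nn A ρ') => x.1.2) ⊆
            {(∏ i, s i ^ (a.2 i)) * x0.1.2, (-∏ i, s i ^ (a.2 i)) * x0.1.2} := by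
          intro u hu
          obtain ⟨x, hx, rfl⟩ := Finset.mem_image.1 hu
          obtain ⟨hxF, hxa⟩ := Finset.mem_filter.1 hx
          have hZa : Z x = a.2 := congrArg Prod.snd hxa
          rw [Finset.mem_insert, Finset.mem_singleton]
          rcases hZ x hxF with h5 | h5
          · left
            rw [hZa] at h5
            rw [← h5]
            simp
          · right
            rw [hZa] at h5
            rw [← h5]
            simp
        have h5 := Finset.card_le_card hmap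
        rw [Finset.card_image_of_injOn hinj] at h5
        exact h5.trans Finset.card_le_two
    calc q0 * F.card ≤ q0 * (2 * {a : ℤ × (Fin n → ℤ) | nrmS σ P κ nn s α A a ≤ ρ}.ncard) :=
          Nat.mul_le_mul_left _ hFc
      _ = 2 * q0 * {a : ℤ × (Fin n → ℤ) | nrmS σ P κ nn s α A a ≤ ρ}.ncard := by ring
  -- conclusion
  have hν0 : 0 ≤ ν := le_trans (Nat.cast_nonneg _) hν
  have hprod0 : 0 ≤ ∏ j, Real.log (Ideal.absNorm (P j)) := Finset.prod_nonneg fun j _ => hlogP j
  have hcR : ((TS P κ nn A ρ').ncard : ℝ) ≤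
      2 * q0 * ({a : ℤ × (Fin n → ℤ) | nrmS σ P κ nn s α A a ≤ ρ}.ncard : ℝ) := by
    exact_mod_cast hcount
  have hplaces := cnt_places K hK
  have hBpow : B ^ (Fintype.card (InfinitePlace K) + m) ≤ B ^ (3 + m) :=
    pow_le_pow_right₀ hB1 (by omega)
  set W : ℝ := ν * A * h ^ (Fintype.card (InfinitePlace K) - 1) *
    (∏ j, Real.log (Ideal.absNorm (P j))) with hW
  have hW0 : 0 ≤ W := by
    rw [hW]
    have : 0 ≤ h := by linarith
    have : 0 ≤ A := by linarith
    positivity
  set c : ℝ := ({a : ℤ × (Fin n → ℤ) | nrmS σ P κ nn s α A a ≤ ρ}.ncard : ℝ) with hc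
  have hc0 : 0 ≤ c := Nat.cast_nonneg _
  have hq00 : (0 : ℝ) ≤ q0 := Nat.cast_nonneg _
  calc ρ ^ (Fintype.card (InfinitePlace K) + m) =
      B ^ (Fintype.card (InfinitePlace K) + m) * ρ' ^ (Fintype.card (InfinitePlace K) + m) := by
        rw [← mul_pow, hρρ']
    _ ≤ B ^ (3 + m) * (C2 * W * (2 * q0 * c)) := by
        apply mul_le_mul hBpow _ (by positivity) (by positivity)
        refine hPHS.trans ?_
        have h5 : C2 * ν * A * h ^ (Fintype.card (InfinitePlace K) - 1) *
          (∏ j, Real.log (Ideal.absNorm (P j))) = C2 * W := by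
          rw [hW]
          ring
        rw [h5]
        exact mul_le_mul_of_nonneg_left hcR (by positivity)
    _ = 2 * C2 * B ^ (3 + m) * q0 * W * c := by ring
    _ ≤ (C1 + 2 * C2 * B ^ (3 + m)) * q0 * W * c := by
        apply mul_le_mul_of_nonneg_right _ hc0
        apply mul_le_mul_of_nonneg_right _ hW0
        apply mul_le_mul_of_nonneg_right _ hq00
        linarith
    _ = _ := by
        rw [hW]
        ring

end Pool.Helper99.SZ
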